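import Pool.Graph.R_pool_sql_team_seeded_35f281b4.K7.H39.TB.Glued
import Pool.Graph.R_pool_sql_team_seeded_2aa45f1a.Q138.LO.Mark
import Pool.Graph.R_seed8.Results.MP_9ae2f3_gt.GluedKnotExteriors

set_option autoImplicit false

/-!
# Pieces for the tori of a closed chain
-/

namespace Pool.Agent.H15.CP

open Pool.Agent.K7.H39.TB
open Pool.Agent.Y479.LS (Aut)
open Pool.Agent.Results.MP_9ae2f3_gt.GluedKnotExteriors (Tree)

/-- The action on the lower sets. -/
def low {G X : Type} [Group G] [LinearOrder X] (φ : G →* (X ≃o X)) :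
    G →* (LowerSet X ≃o LowerSet X) where
  toFun g := LowerSet.map (φ g)
  map_one' := by
    refine OrderIso.ext (funext fun s => ?_)
    apply SetLike.coe_injective
    rw [LowerSet.coe_map, map_one]
    exact Set.image_id _
  map_mul' g h := by
    refine OrderIso.ext (funext fun s => ?_)
    apply SetLike.coe_injective
    show ((LowerSet.map (φ (g * h)) s : LowerSet X) : Set X) =
      ((LowerSet.map (φ g) (LowerSet.map (φ h) s) : LowerSet X) : Set X)
    rw [LowerSet.coe_map, LowerSet.coe_map, LowerSet.coe_map, map_mul, ← Set.image_comp]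
    rfl

theorem low_Iic {G X : Type} [Group G] [LinearOrder X] (φ : G →* (X ≃o X)) (g : G) (x : X) :
    low φ g (LowerSet.Iic x) = LowerSet.Iic (φ g x) := by
  apply SetLike.coe_injective
  show ((LowerSet.map (φ g) (LowerSet.Iic x) : LowerSet X) : Set X) = _
  rw [LowerSet.coe_map]
  exact (φ g).image_Iic x

theorem Iic_lt {X : Type} [LinearOrder X] {x y : X} : LowerSet.Iic x < LowerSet.Iic y ↔ x < y := by
  rw [lt_iff_le_not_ge, lt_iff_le_not_ge, LowerSet.Iic_le, LowerSet.Iic_le]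
  exact Iff.rfl

theorem low_lt {G X : Type} [Group G] [LinearOrder X] (φ : G →* (X ≃o X)) (g : G) (x : X) :
    LowerSet.Iic x < low φ g (LowerSet.Iic x) ↔ x < φ g x := by
  rw [low_Iic]
  exact Iic_lt

theorem low_gt {G X : Type} [Group G] [LinearOrder X] (φ : G →* (X ≃o X)) (g : G) (x : X) :
    low φ g (LowerSet.Iic x) < LowerSet.Iic x ↔ φ g x < x := by
  rw [low_Iic]
  exact Iic_lt

theorem low_eq {G X : Type} [Group G] [LinearOrder X] (φ : G →* (X ≃o X)) (g : G) (x : X) :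
    low φ g (LowerSet.Iic x) = LowerSet.Iic x ↔ φ g x = x := by
  rw [low_Iic]
  constructor
  · intro h
    exact le_antisymm (not_lt.mp fun h1 => absurd h (Iic_lt.mpr h1).ne')
      (not_lt.mp fun h1 => absurd h (Iic_lt.mpr h1).ne)
  · intro h
    rw [h]

/-- The elements of the positive quadrant have the same sign at each point. -/
theorem tree_good {G : Type} [Group G] {x e : G} (h : Tree G x e) {a b c d : ℕ} (ha : 1 ≤ a)
    (hb : 1 ≤ b) (hc : 1 ≤ c) (hd : 1 ≤ d) :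
    Pool.Agent.Q138.LO.Good (x ^ a * e ^ b) (x ^ c * e ^ d) := by
  obtain ⟨h1, h2⟩ := h.piece'.{0}
  have hT := h2.tameE h1
  intro X _ φ p
  have hs := hT.scap (LowerSet X) (low φ) a b c d ha hb hc hd
  have hs' := hT.scap (LowerSet X) (low φ) c d a b hc hd ha hb
  have hf := hT.fix (LowerSet X) (low φ) a b ha hb
  -- signs of the inverse
  have inv_lt : ∀ g : G, φ g⁻¹ p < p ↔ p < φ g p := by
    intro g
    rw [← (φ g).lt_iff_lt, ← RelIso.mul_apply, ← map_mul, mul_inv_cancel, map_one]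
    rfl
  have lt_inv : ∀ g : G, p < φ g⁻¹ p ↔ φ g p < p := by
    intro g
    rw [← (φ g).lt_iff_lt, ← RelIso.mul_apply, ← map_mul, mul_inv_cancel, map_one]
    rfl
  have k1 : p < φ (x ^ a * e ^ b) p → p < φ (x ^ c * e ^ d) p := fun h3 =>
    (inv_lt _).mp ((low_gt φ _ p).mp (hs.up _ ((low_lt φ _ p).mpr h3)))
  have k2 : φ (x ^ a * e ^ b) p < p → φ (x ^ c * e ^ d) p < p := fun h3 =>
    (lt_inv _).mp ((low_lt φ _ p).mp (hs.down _ ((low_gt φ _ p).mpr h3)))
  have k3 : p < φ (x ^ c * e ^ d) p → p < φ (x ^ a * e ^ b) p := fun h3 =>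
    (inv_lt _).mp ((low_gt φ _ p).mp (hs'.up _ ((low_lt φ _ p).mpr h3)))
  have k4 : φ (x ^ c * e ^ d) p < p → φ (x ^ a * e ^ b) p < p := fun h3 =>
    (lt_inv _).mp ((low_lt φ _ p).mp (hs'.down _ ((low_gt φ _ p).mpr h3)))
  refine ⟨⟨fun h3 => ?_, fun h3 => ?_⟩, ⟨fun h3 => ?_, fun h3 => ?_⟩, fun h3 g => ?_⟩
  · exact not_lt.mp fun h4 => absurd (k3 h4) (not_lt.mpr h3)
  · exact not_lt.mp fun h4 => absurd (k1 h4) (not_lt.mpr h3)
  · exact not_lt.mp fun h4 => absurd (k4 h4) (not_lt.mpr h3)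
  · exact not_lt.mp fun h4 => absurd (k2 h4) (not_lt.mpr h3)
  · exact (low_eq φ g p).mp (hf _ ((low_eq φ _ p).mpr h3) g)

section general

variable {M : Piece}

theorem ok_of_good (h : Pool.Agent.Q138.LO.Good M.A M.a) : M.Ok where
  pos X _ φ x hx := by
    obtain ⟨h1, h2, h3⟩ := h X φ x
    exact h2.mp hx.le
  neg X _ φ x hx := by
    obtain ⟨h1, h2, h3⟩ := h X φ x
    exact h1.mp hx.le
  fix X _ φ x hx := (h X φ x).2.2 hx

theorem proper_of_good (h : Pool.Agent.Q138.LO.Good M.A M.a) : M.Proper where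
  pos X _ φ x hx := by
    obtain ⟨h1, h2, h3⟩ := h X φ x
    exact not_le.mp fun h4 => absurd (h1.mpr h4) (not_le.mpr hx)
  neg X _ φ x hx := by
    obtain ⟨h1, h2, h3⟩ := h X φ x
    exact not_le.mp fun h4 => absurd (h2.mpr h4) (not_le.mpr hx)

/-- The piece is bounded if the quotient `A a⁻¹` has the sign of `A`. -/
theorem bounded_of_good (h : M.A = M.a ∨ Pool.Agent.Q138.LO.Good M.A (M.A * M.a⁻¹)) :
    M.Bounded := by
  rcases h with h | h
  · exact ⟨fun X _ φ x _ => by rw [h], fun X _ φ x _ => by rw [h]⟩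
  have e : ∀ (X : Type) [LinearOrder X] (φ : M.P →* Aut X) (x : X),
      φ (M.A * M.a⁻¹) (φ M.a x) = φ M.A x := by
    intro X _ φ x
    rw [← Aut.mul_apply, ← map_mul, inv_mul_cancel_right]
  have c : ∀ (X : Type) [LinearOrder X] (φ : M.P →* Aut X) (x : X),
      φ M.A (φ M.a x) = φ M.a (φ M.A x) := by
    intro X _ φ x
    rw [← Aut.mul_apply, ← map_mul, ← M.comm, map_mul, Aut.mul_apply]
  constructor
  · intro X _ φ x hx
    obtain ⟨h1, h2, h3⟩ := h X φ (φ M.a x)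
    have h4 : φ M.a x ≤ φ M.A (φ M.a x) := by
      rw [c]; exact ((φ M.a).lt_iff.mpr hx).le
    have h5 := h2.mp h4
    exact h5.trans (e X φ x).le
  · intro X _ φ x hx
    obtain ⟨h1, h2, h3⟩ := h X φ (φ M.a x)
    have h4 : φ M.A (φ M.a x) ≤ φ M.a x := by
      rw [c]; exact ((φ M.a).lt_iff.mpr hx).le
    have h5 := h1.mp h4
    exact (e X φ x).ge.trans h5

end general

section words
open Pool.Agent.Q138.LO (KleinGroup kx ky SeifGroup sc sh InCone klein_comm seif_pcomm)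

theorem word_comm {G : Type} [Group G] {s t : G} (h : Commute s t) (i j k l : ℤ) :
    (s ^ k * t ^ l) * (s ^ i * t ^ j) = (s ^ i * t ^ j) * (s ^ k * t ^ l) := by
  have c1 : Commute (s ^ i) (s ^ k * t ^ l) :=
    ((Commute.refl s).zpow_zpow i k).mul_right (h.zpow_zpow i l)
  have c2 : Commute (t ^ j) (s ^ k * t ^ l) :=
    (h.symm.zpow_zpow j k).mul_right ((Commute.refl t).zpow_zpow j l)
  exact ((c1.mul_left c2).symm).eq

theorem word_quot {G : Type} [Group G] {s t : G} (h : Commute s t) (i j k l : ℤ) :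
    (s ^ i * t ^ j) * (s ^ k * t ^ l)⁻¹ = s ^ (i - k) * t ^ (j - l) := by
  rw [mul_inv_rev, zpow_sub, zpow_sub]
  have h2 : t ^ j * (t ^ l)⁻¹ * (s ^ k)⁻¹ = (s ^ k)⁻¹ * (t ^ j * (t ^ l)⁻¹) := by
    have c : Commute (t ^ j * (t ^ l)⁻¹) (s ^ k)⁻¹ :=
      ((h.symm.zpow_zpow j k).mul_left ((h.symm.zpow_zpow l k).inv_left)).inv_right
    exact c.eq
  calc s ^ i * t ^ j * ((t ^ l)⁻¹ * (s ^ k)⁻¹)
      = s ^ i * (t ^ j * (t ^ l)⁻¹ * (s ^ k)⁻¹) := by simp only [mul_assoc]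
    _ = s ^ i * ((s ^ k)⁻¹ * (t ^ j * (t ^ l)⁻¹)) := by rw [h2]
    _ = _ := by simp only [mul_assoc]

theorem klein_comm' (i j k l : ℤ) :
    (ky ^ k * kx ^ (2 * l)) * (ky ^ i * kx ^ (2 * j)) =
      (ky ^ i * kx ^ (2 * j)) * (ky ^ k * kx ^ (2 * l)) := by
  have := word_comm klein_comm i j k l
  rwa [← zpow_mul, ← zpow_mul] at this

theorem klein_quot (i j k l : ℤ) :
    (ky ^ i * kx ^ (2 * j)) * (ky ^ k * kx ^ (2 * l))⁻¹ =
      ky ^ (i - k) * kx ^ (2 * (j - l)) := by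
  have := word_quot klein_comm i j k l
  rwa [← zpow_mul, ← zpow_mul, ← zpow_mul] at this

theorem seif_comm' (n : ℕ) (α β : Fin n → ℕ) (i j k l : ℤ) :
    (sc n α β ^ k * sh n α β ^ l) * (sc n α β ^ i * sh n α β ^ j) =
      (sc n α β ^ i * sh n α β ^ j) * (sc n α β ^ k * sh n α β ^ l) :=
  word_comm (seif_pcomm n α β) i j k l

theorem seif_quot {n : ℕ} {α β : Fin n → ℕ} (i j k l : ℤ) :
    (sc n α β ^ i * sh n α β ^ j) * (sc n α β ^ k * sh n α β ^ l)⁻¹ =
      sc n α β ^ (i - k) * sh n α β ^ (j - l) :=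
  word_quot (seif_pcomm n α β) i j k l

variable {N : Type} [Group N] {x e : N}

theorem tree_comm' (h : Tree N x e) (i j k l : ℕ) :
    (x ^ k * e ^ l) * (x ^ i * e ^ j) = (x ^ i * e ^ j) * (x ^ k * e ^ l) := by
  have := word_comm (h.piece'.{0}).1 i j k l
  simpa only [zpow_natCast] using this

theorem tree_quot (h : Tree N x e) {i j k l : ℕ} (h1 : k ≤ i) (h2 : l ≤ j) :
    (x ^ i * e ^ j) * (x ^ k * e ^ l)⁻¹ = x ^ (i - k) * e ^ (j - l) := by
  have := word_quot (h.piece'.{0}).1 i j k l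
  rw [← Nat.cast_sub h1, ← Nat.cast_sub h2] at this
  simpa only [zpow_natCast] using this

end words

end Pool.Agent.H15.CP
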